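import Pool.Agent.H941.ST.Top
import Pool.Agent.H941.ST.Root

/-!
# The strong monodromy conjecture for forms whose continuous cubic sections are cubic forms

Let `f` be a form of degree `d` in three variables. We assume (`CubicChain`) that the curve `f = 0` is
the union of a curve `H = 0` of degree `e ≥ 3` and of curves `g_1 = 0, …, g_r = 0` such that

* `H = 0` has few bad points (`FewBad`): there are `K ≥ 0` linear forms `l_i` such that each line
  `l_i = 0` has at least `K + 4` different points on `H = 0`, and each singular point of `H = 0` is an
  ordinary double point of this curve (`NodeAt`), or a non-resonant quasi-homogeneous point of `f`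
  (`QHAt`: there is a vector field `θ` with `θ f = 0` and `θ(z) = c z`, which has integer weights on the
  tangent space, and `3 c` is no integer), or the product of the `l_i` is locally at this point in the
  ideal of the partial derivatives of `H` (`JacAt`). So arbitrary singular points are allowed, if the
  degree of `H` is large in comparison with the degrees of their Milnor algebras. Or, more
  generally, the continuous sections of `O(3)` on `H = 0`, which are regular at the non-resonant
  quasi-homogeneous points of `f`, are cubic forms (`Cubic`);
* let `D_j` be the union of `H = 0` and the curves `g_l = 0`, `l < j`. Then `g_j` is irreducible and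
  `g_j = 0` has more than `3 deg (g_j)` different points on `D_j`, or `g_j = 0` meets `D_j` only
  transversally or in non-resonant quasi-homogeneous points of `f`, and `D_j` has degree at least
  four or `g_j` is irreducible;
* `H = 0` has degree at least four and no other singular points than ordinary double points, or the
  linear vector fields which annihilate `f` have trace `0` (`TrZero`). (If there is such a field of
  trace `≠ 0`, then `f ^ (-3/d) dx₀ dx₁ dx₂` is exact.)

The multiplicities of all components in `f` are arbitrary, and so are the singularities of the
curves `g_j = 0` outside of `D_j` (in the first case, all of their singularities and intersections).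
So the curve `f = 0` may have singular points which are not quasi-homogeneous.

**The topological zeta function** is taken from the spaces of jets (`zetaM`, `IsTopZeta`, starting
library). **All other poles** of the topological zeta function are roots of `b`: outside of the vertex
the zeta function is locally one of a polynomial in two variables, see `MA` (helper940's and
helper942's modules and the library: Loeser's theorem with multiplicities over the field `ℂ`, cones
over plane curves). So the question is whether `b(-3/d) = 0`.

The proof of `b(-3/d) = 0`; put `s = -3/d` and let `s < 0` be no root of `b`:

* `bert`: there is a line which meets the reduced curve `Q = 0` in `N = deg Q` points; let it be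
  the line at infinity for the affine coordinates `t = x₀`, `x₁ = 1`, `x = x₂`, such that the given
  points have different coordinates `t`, and the branches at the double points are not vertical;
* `exact_two'`, `dat`: the functional equation gives (by `root_of_not_exact`, in the library)
  `f ^ s = ∂_t (P f ^ (s - K)) + ∂_x (R f ^ (s - K))` with polynomials; over the field `ℂ(t)` the
  order of the pole along `Q = 0` can be reduced to one;
* `fin_pt2`, `lim_inf'`: let `a_1(t), …, a_N(t)` be the roots of `Q(t, 1, x)`. The residues `y_j(t)` of
  the primitive at these roots satisfy a linear differential system. As all exponents are
  negative, an energy identity shows that they are bounded at all finite points, that they have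
  the SAME limit on all branches through a point, and that `y_j = O(t ^ 3)` at infinity;
* `poly`: so the primitive `f ^ s = ∂_t (p f ^ s / Q) + ∂_x (ρ f ^ s / Q)` has polynomials `p, ρ`. By
  `tends` the residue `y` is a continuous section of `O(3)` on the curve;
* `loc`, `reg_form`: at a non-resonant quasi-homogeneous point, the vector field acts on the
  truncated local ring with eigenvalues that are combinations of the weights; the shifted operator
  is invertible, so that the residue is the restriction of a regular function;
* `bdd_poly_t`, `start_local`: for the bad points, the product of the function `y` with the linear
  forms `l_i` is regular on `H = 0`, since it is in the ideal of the partial derivatives; so it is the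
  restriction of a polynomial `B` of degree at most `K + 3` (by the growth at infinity);
* `strip`: at the points where a line `l_i = 0` meets `H = 0`, the polynomial `B` is `0`; there are at
  least `K + 4` such points on the line, so `l_i` divides `B` modulo `H`. By induction, `y` is the
  restriction of a polynomial `Z` of degree at most three;
* `step`: the function `y - Z` on `g_j = 0` vanishes at the more than `3 deg (g_j)` points where the
  curve meets the previous ones, and is bounded by `t ^ 3`: the product of its values at the roots
  is an entire function of `t` with more zeros than its growth allows; `step2`, `step3`: the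
  function `(y - Z) / D_j` on `g_j = 0` has no poles, and it is zero or a constant by its growth at
  infinity. By induction, `y = Z` on `Q = 0`;
* `endgame`: after subtracting `∂_t (∂_x (Z f ^ s)) - ∂_x (∂_t (Z f ^ s))`, the primitive is a vector field
  without poles which is tangent to `Q = 0`, of the total degree at most two. It vanishes if `H = 0`
  has ordinary double points and degree at least four (`fin_nod`), and otherwise it comes from a
  linear vector field of trace `≠ 0` which annihilates `f` (`fin_lin`); this is a contradiction.
-/

set_option autoImplicit false

namespace Pool.Agent.Results.MP_504089_ag.CubicChain

open MvPolynomial Pool.Agent.H941.QK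
open Pool.Agent.W428.MOT (MK Lu)
open Pool.Agent.TH192.MT (zetaM)
open Pool.Agent.TH192.MU (IsTopZeta)
open Pool.Agent.H628R4.TP (IsBFunction)

/-- **Q1 for the forms `f` of degree `d` in
three variables of the class `CubicChain`: the curve `f = 0` consists of a curve with few bad points
(apart from double points and non-resonant quasi-homogeneous points of `f`), or whose continuous
sections of `O(3)` are cubic forms, and of components which have many points on the previous ones
or meet them transversally or in quasi-homogeneous points**.

`Z` is the topological zeta function of `f` (`IsTopZeta E ε (zetaM f univ {c ≠ 0}) Z`: for `s = 1, 2, …`,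
`Z(s)` is the value under `ε` of the motivic zeta function of `f` at `T = 𝕃 ^ (-s)`, after a realisation `E` with
values in a domain `R`, where `ε (E 𝕃) = 1` and `E 𝕃 ≠ 1`; for instance the Euler characteristic, from the
Hodge-Deligne polynomials), `s₀` is a pole of `Z`, and `b` satisfies `b(s) f ^ s = P(s) f ^ (s + 1)`, `P(s)` in
the Weyl algebra, polynomial in `s` (for instance `b = b_f`). Then `b(s₀) = 0`; moreover `b(-3/d) = 0`. -/
theorem result (f : MvPolynomial (Fin 3) ℂ) (d : ℕ) (hf : f.IsHomogeneous d)
    (hc : CubicChain f)
    {R : Type} [CommRing R] [IsDomain R] (E : MK ℂ →+* R) (ε : R →+* ℂ)
    (hε : ε (E ((Lu ℂ : (MK ℂ)ˣ) : MK ℂ)) = 1) (hE : E ((Lu ℂ : (MK ℂ)ˣ) : MK ℂ) ≠ 1)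
    (Z : RatFunc ℂ) (hZ : IsTopZeta E ε (zetaM f Set.univ {c | c ≠ 0}) Z)
    (b : Polynomial ℂ) (hb : IsBFunction f b) :
    b.eval (-3 / d : ℂ) = 0 ∧ ∀ s₀ : ℂ, Z.denom.eval s₀ = 0 → b.eval s₀ = 0 := by
  have hr := Pool.Agent.H941.ST.cubic_root hf hc
  exact ⟨hr.2.2 b hb, fun s₀ hs =>
    Pool.Agent.H940.P.ma_top E ε hε hE (Pool.Agent.H941.ST.ma_mal hf hr).1 Z hZ s₀ hs b hb⟩

end Pool.Agent.Results.MP_504089_ag.CubicChain
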