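import Pool.Agent.H940.G.Top

/-!
# The strong monodromy conjecture for forms with locally weighted homogeneous isolated singularities

Let `f ≠ 0` be a form of degree `d ≥ 2` in `x_0, …, x_n` such that the hypersurface `{f = 0}` in the
projective space has only isolated singularities, and each of them is weighted homogeneous: after a
formal change of coordinates and up to a unit the germ is a weighted homogeneous polynomial with an
isolated critical point (all weights positive). We prove Q1 for `f`. There are no other hypotheses; in
particular it is not assumed that `-(n + 1)/d` is a root of the Bernstein-Sato polynomial, and there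
are forms in the class for which it is not one (for example `x ^ (d - 1) y + z ^ d`, `d ≥ 4`).

Examples. All reduced plane curves with singularities of type `A`, `D`, `E`, ordinary multiple points
which are weighted homogeneous, `x ^ a = y ^ b`, and so on (`n = 2`), for instance all reduced
arrangements of lines, and of lines and conics with quasi-homogeneous singularities; all surfaces in the
projective three-space with rational double points, and so on in all dimensions; all smooth
hypersurfaces.

**Method.** (1) The Jacobian ideal of `f` is of linear type (`lty`): there are `n` combinations of the
partial derivatives which form a regular sequence outside of a divisor, and locally `f` is in the ideal of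
the products of the derivatives and of functions which vanish at the point. (2) Hence
the annihilator of `f ^ s` is generated by operators of order one, up to what is needed for the
following: if `b(s) f ^ s = P(s) f ^ (s + 1)` near the origin, then `b(-(n + 1)/d) = 0`, or there is a vector
field which kills `f` and has a non-zero divergence at the origin (`root_or_field`). (3) In the second
case the linear part of the vector field has a non-zero trace and kills `f`, and so does its semisimple
part. So `f` is homogeneous for a second one-parameter group of linear maps, with weights `a_i` and
degree `e`, where `(∑ a_i)/e ≠ (n + 1)/d` (`exists_second`). (4) The motivic volumes of the arcs on which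
`f` has the order `≥ N` satisfy a recursion for each of the two groups. This gives two formulas for
the motivic zeta function, one with the denominator of `-(n + 1)/d`, and one with the denominator of
`-(∑ a_i)/e` instead (for infinitely many values of `(∑ a_i)/e`). The error terms come from arcs with origin
outside of `0`: near the singular lines these are the volumes for the weighted homogeneous germs, and
away from them the order of the gradient of `f` is bounded, so that the volumes form a geometric series
(`stable`). (5) The pole `-(∑ w_i)/N` of a weighted homogeneous germ and `-1` are roots, again by (1), (2).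
(6) A topological zeta function with two such formulas has no pole at `-(n + 1)/d`.
-/

set_option autoImplicit false

namespace Pool.Agent.Results.MP_504089_ag.FormsLocallyWH

open MvPolynomial Pool.Agent.H940.G
open Pool.Agent.W428.MOT (MK Lu)
open Pool.Agent.TH192.MT (zetaM)
open Pool.Agent.TH192.MU (IsTopZeta)
open Pool.Agent.H628R4.TP (IsBFunction)

/-- **Q1 for forms with only weighted homogeneous isolated projective singularities.**

`f ≠ 0` is a form of degree `d ≥ 2` in `n + 1` variables. For every singular point of the projective
hypersurface, with the coordinates `x_i = 1` and `q` (all partial derivatives of `f` vanish there), the germ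
`germAt i q f` of the dehomogenized form is weighted homogeneous with an isolated critical point in
suitable formal coordinates (`WHG`).

`Z` is the topological zeta function of `f` (`IsTopZeta E ε (zetaM f univ {c ≠ 0}) Z`: for `s = 1, 2, …`,
`Z(s)` is the value under `ε` of the motivic zeta function of `f` at `T = 𝕃 ^ (-s)`, after a realisation `E`
with values in a domain `R`, where `ε (E 𝕃) = 1` and `E 𝕃 ≠ 1`; for instance the Euler characteristic, from
the Hodge-Deligne polynomials), `s₀` is a pole of `Z`, and `b` satisfies `b(s) f ^ s = P(s) f ^ (s + 1)`,
`P(s)` in the Weyl algebra, polynomial in `s` (for instance `b = b_f`). Then `b(s₀) = 0`. -/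
theorem result {n : ℕ} (f : MvPolynomial (Fin (n + 1)) ℂ) (hf0 : f ≠ 0) (d : ℕ) (hd : 2 ≤ d)
    (hf : f.IsHomogeneous d)
    (H : ∀ (i : Fin (n + 1)) (q : Fin n → ℂ), (∀ j, eval (i.insertNth 1 q) (pderiv j f) = 0) →
      ∃ (g : MvPolynomial (Fin n) ℂ) (w : Fin n → ℕ) (N : ℕ)
        (η : Fin n → MvPowerSeries (Fin n) ℂ), WHG (germAt i q f) g w N η)
    {R : Type} [CommRing R] [IsDomain R] (E : MK ℂ →+* R) (ε : R →+* ℂ)
    (hε : ε (E ((Lu ℂ : (MK ℂ)ˣ) : MK ℂ)) = 1) (hE : E ((Lu ℂ : (MK ℂ)ˣ) : MK ℂ) ≠ 1)
    (Z : RatFunc ℂ) (hZ : IsTopZeta E ε (zetaM f Set.univ {c | c ≠ 0}) Z) (s₀ : ℂ)
    (hs : Z.denom.eval s₀ = 0) (b : Polynomial ℂ) (hb : IsBFunction f b) : b.eval s₀ = 0 :=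
  global_top hd hf hf0 H E ε hε hE Z hZ s₀ hs b hb

end Pool.Agent.Results.MP_504089_ag.FormsLocallyWH
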