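import Pool.Agent.H942.T3.Main

/-!
# The strong monodromy conjecture for plane curves of large degree and for their multiples

Let `f ≠ 0` be a form of degree `d` in three variables over `ℂ` (for the `p`-adic results: with
rational or integral coefficients).

**Forms whose reduced curve has a large degree** (`DivSub`, first case). Let `H = 0` be the reduced curve of
`f = 0` and `e` its degree. Double points of `H = 0` (of all types `A_k`) and non-resonant quasi-homogeneous
points of `f` (`QHAt`) are free. Let `P_b` be the other singular points, and let `k_b` be numbers with
`dist (y, P_b) ^ (k_b + 2) = o (|grad H (y)|)` for `y → P_b` on `H = 0` (`Small`). For an ordinary `m`-fold point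
this is `k = m - 2`; in general it means that the power `k + 1` of the maximal ideal of the point is contained in
the conductor. The theorem holds **if `∑ k_b + 5 ≤ e`** (without such points: if `e ≥ 4`), more generally if the
forms of degree `e - 6` separate the jets of order `< k_b` at the points `P_b` (`SepJets`); for example, if the
`P_b` are ordinary triple points which impose independent conditions on the curves of degree `e - 6`. The
multiplicities of the components of `f = 0` are arbitrary.

**Multiples** (`DivSub`, second case). If `H` is any squarefree divisor of `f` which satisfies the same
conditions, and if the points of `H = 0` have multiplicities `≤ m < e / 3`, then the theorem holds, and **the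
form `f / H` is arbitrary**: any number of components, with any multiplicities, with any singularities and with
any contact to `H = 0`. For example `H = 0` is a smooth curve of a degree `≥ 4`, or a curve of a degree `≥ 7` with
arbitrary double points, or of a degree `e ≥ 10` with `e - 5` ordinary triple points and with any number of
double points.

**The general case** (`TameSub`). The reduced curve `f = 0` is the union of `H = 0` and of `g_1 = 0, …, g_r = 0`
(forms, `H ∏ g_j` squarefree), where

* (`Start`) `H` satisfies the conditions above; or `e > 2 κ + 3`, and each singular point `z` of `H = 0` is a
  double point of this curve, or a non-resonant quasi-homogeneous point of `f`, or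
  `dist (y, z) ^ 2 (|g₁ y| + |g₂ y|) = o (|grad H (y)|)` for `y → z` on `H = 0`, where `g₁`, `g₂` are two
  relatively prime forms of degree `κ`, which do not depend on `z`;
* let `D_j` be the product of `H` and the `g_l` with `l < j`; then `g_j` is irreducible and has more than
  `3 deg g_j` different common points with `D_j = 0`, or `D_j = 0` has a multiplicity `≤ m` at the common
  points (those which are not non-resonant quasi-homogeneous points of `f`), where `3 m < deg D_j`.

For `b(-3/d) = 0` we also assume (`NoField`, `TameNF`) that all linear vector fields which annihilate `f` have
trace `0`; it is sufficient that some form `H' ∣ f` of degree `e'` has only points of multiplicities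
`≤ M < e' / 2`, or that the singular points of `H = 0` are nodes. The theorem on the poles has no such condition:
if there is such a vector field, then `f` is homogeneous for a second torus and `-3/d` is not needed (`tw_or`,
`pw_or`).

The curve `f = 0` is in general not reduced, its singular points are in general not quasi-homogeneous,
and the components `g_j = 0` have arbitrary singularities outside of the previous components.

The proof of `b(-3/d) = 0` (`TameSub.root`). Put `s = -3/d` and suppose that `b(s) ≠ 0`.

* `bert`, `center2`: there are coordinates `t = x₀`, `x₁ = 1`, `x = x₂` such that the line at infinity is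
  transversal to the reduced curve `Q = 0`, no tangent at the (finitely many) bad points is vertical, and
  different bad points have different coordinates `t`;
* (library, and helper941's modules) the functional equation gives polynomials with
  `f ^ s = ∂_t (p f ^ s / Q) + ∂_x (ρ f ^ s / Q)`; let `y` be the residue of this primitive, a function on the
  curve `Q = 0`. It is bounded near each point and `O (t ^ 3)` at infinity, and (`lip`) it is even a
  **Lipschitz function** of the points of the curve: `(y_i - y_j) / (a_i - a_j)` has a limit for any two
  branches `x = a_i (t)`, `x = a_j (t)`. The quotients satisfy a linear system with positive exponents, since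
  `s < 0`; the multiplicities of the components do not matter;
* `t_Mo`: hence `y = y(z) + O (t - t(z))` along each branch through `z` (monodromy: the differences of the
  conjugates are bounded by those of the branches);
* `t_St2`: so, near each point `z` of `H = 0`, the product of `y` with a function `g` is the restriction of a
  polynomial: with `g = 1` at double points, since Lipschitz functions on `A_k`-singularities are regular
  (`t_V3`), with all `g` in the power `k` of the maximal ideal at a point of depth `k` (`t_FP`), by Lagrange
  interpolation in clusters of roots (`t_V`, `t_V2`);
* `gs`, `t_Rg`, `t_Al`, `t_In`: **`y` is a polynomial on `H = 0`**, by a residue argument. Let `y = W / δ(t)` on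
  `H = 0`, with the polynomial `δ` of the least degree, and let `δ(b) = 0`. For a polynomial `g` of degree
  `≤ e - 6` the trace of `g y / ∂_x H` is a rational function of `t` which is `O (t ^ (-2))` at infinity and has no
  poles outside of `b` if `g` vanishes to the order `k_z` at the bad points outside of the fibre. The jet of `g` at
  the bad point of the fibre is arbitrary, and the residue at `b` is zero. So `y` has no pole there;
* or (`t_Zq`) `g₁ y = W₁` and `g₂ y = W₂` on `H = 0`, and `g₂ W₁ - g₁ W₂` has degree `≤ 2 κ + 3 < e`, so it is `0`,
  and `y` is a polynomial on `H = 0`. In both cases `y = Z` on `H = 0` with a polynomial `Z` of degree `≤ 3`;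
* `t_Ps`: on `g_j = 0` the function `(y - Z) ^ m / D_j` is bounded (Lipschitz, and `y = Z` on `D_j = 0`) and
  is `O (t ^ (3 m - deg D_j))` at infinity; so it is `0`; or it has more zeros than its degree. So `y = Z`
  on `Q = 0`;
* endgame: after a change by a boundary the primitive is a vector field without poles which is tangent to
  the curve, and then a linear vector field of trace `≠ 0` which annihilates `f`, a contradiction (`t_MF`: then
  each curve contained in `f = 0` has a point of a multiplicity `≥ e' / 2`).

**All other poles** of the topological zeta function are roots of `b`: outside of the vertex the zeta function is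
locally one of a polynomial in two variables, see `MA` (helper940's modules and the library: Loeser's theorem with
multiplicities over the field `ℂ`, cones over plane curves).
-/

set_option autoImplicit false

namespace Pool.Agent.Results.MP_504089_ag.TameSubcurve

open MvPolynomial Pool.Agent.H942.T3
open Pool.Agent.W428.MOT (MK Lu)
open Pool.Agent.TH192.MT (zetaM)
open Pool.Agent.TH192.MU (IsTopZeta)
open Pool.Agent.H628R4.TP (IsBFunction)

/-- **Q1 for all forms in three variables whose curve has a tame subcurve (class `Tame`):
forms whose reduced curve `H = 0` has a degree `e ≥ 5 + ∑ k_b`, where `k_b` are the depths of the singular points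
which are not double points, multiples of such `H` with points of multiplicities `< e / 3`, and more**.

`f ≠ 0` is a form of degree `d` in three variables. `Z` is the topological zeta function of `f`
(`IsTopZeta E ε (zetaM f univ {c ≠ 0}) Z`: for `s = 1, 2, …`, `Z(s)` is the value under `ε` of the motivic zeta
function of `f` at `T = 𝕃 ^ (-s)`, after a realisation `E` with values in a domain `R`, where `ε (E 𝕃) = 1` and
`E 𝕃 ≠ 1`; for instance the Euler characteristic, from the Hodge-Deligne polynomials), `s₀` is a pole of `Z`,
and `b` satisfies `b(s) f ^ s = P(s) f ^ (s + 1)`, `P(s)` in the Weyl algebra, polynomial in `s` (for instance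
`b = b_f`). Then `b(s₀) = 0`; moreover `b(-3/d) = 0` if no linear vector field of trace `≠ 0` annihilates `f`
(`TameNF`). -/
theorem result (f : MvPolynomial (Fin 3) ℂ) (hf0 : f ≠ 0) (d : ℕ) (hf : f.IsHomogeneous d)
    (hc : Tame f)
    {R : Type} [CommRing R] [IsDomain R] (E : MK ℂ →+* R) (ε : R →+* ℂ)
    (hε : ε (E ((Lu ℂ : (MK ℂ)ˣ) : MK ℂ)) = 1) (hE : E ((Lu ℂ : (MK ℂ)ˣ) : MK ℂ) ≠ 1)
    (Z : RatFunc ℂ) (hZ : IsTopZeta E ε (zetaM f Set.univ {c | c ≠ 0}) Z)
    (b : Polynomial ℂ) (hb : IsBFunction f b) :
    (TameNF f → b.eval (-3 / d : ℂ) = 0) ∧ ∀ s₀ : ℂ, Z.denom.eval s₀ = 0 → b.eval s₀ = 0 :=
  ⟨fun h => h.root hf0 hf hb, fun s₀ hs =>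
    Pool.Agent.H940.P.ma_top E ε hε hE (hc.ma hf0 hf) Z hZ s₀ hs b hb⟩

end Pool.Agent.Results.MP_504089_ag.TameSubcurve
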